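import Pool.Agent.W117.GH.Defs

/-!
# Statements of the parts of project GH
-/

set_option autoImplicit false

open scoped ContDiff ComplexConjugate
open MeasureTheory Filter Topology Set

noncomputable section

namespace Pool.Agent.W117.GH

/-! ## The regular singular initial value problem -/

/-- `h` is continuous and `h(x) = h0 + ∫_0^x ∫_0^1 F(θ t, h(θ t)) dθ dt` for all real `x`. -/
def Sol (F : ℝ → ℝ → ℝ) (h0 : ℝ) (h : ℝ → ℝ) : Prop :=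
  Continuous h ∧ ∀ x, h x = h0 + ∫ t in (0:ℝ)..x, ∫ θ in (0:ℝ)..1, F (θ * t) (h (θ * t))

/-- existence and Lipschitz dependence on the initial value -/
def PropEX : Prop :=
  ∀ F : ℝ → ℝ → ℝ, Continuous (Function.uncurry F) → (∃ C, ∀ x y, |F x y| ≤ C) →
    (∃ L, ∀ x y y', |F x y - F x y'| ≤ L * |y - y'|) →
    ∃ Φ : ℝ → ℝ → ℝ, (∀ h0, Sol F h0 (Φ h0)) ∧
      ∀ R, ∃ K, ∀ a b x, |x| ≤ R → |Φ a x - Φ b x| ≤ K * |a - b|

/-- smoothness -/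
def PropSM : Prop :=
  ∀ F : ℝ → ℝ → ℝ, ContDiff ℝ ∞ (Function.uncurry F) → ∀ h0 h, Sol F h0 h → ContDiff ℝ ∞ h

/-- uniqueness on `[0,δ]` -/
def PropUN : Prop :=
  ∀ (F : ℝ → ℝ → ℝ) (L δ h0 : ℝ), Continuous (Function.uncurry F) → 0 < δ →
    (∀ x y y', |F x y - F x y'| ≤ L * |y - y'|) → ∀ g₁ g₂ : ℝ → ℝ,
    ContinuousOn g₁ (Icc 0 δ) → ContinuousOn g₂ (Icc 0 δ) →
    (∀ x ∈ Icc 0 δ, g₁ x = h0 + ∫ t in (0:ℝ)..x, ∫ θ in (0:ℝ)..1, F (θ * t) (g₁ (θ * t))) →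
    (∀ x ∈ Icc 0 δ, g₂ x = h0 + ∫ t in (0:ℝ)..x, ∫ θ in (0:ℝ)..1, F (θ * t) (g₂ (θ * t))) →
    ∀ x ∈ Icc 0 δ, g₁ x = g₂ x

/-- a solution of `(y g')' = F(y, g)` on `(0,δ)` with `g → g0`, `y g' → 0` solves the
integral equation -/
def PropIE : Prop :=
  ∀ (F : ℝ → ℝ → ℝ) (δ g0 : ℝ) (g : ℝ → ℝ), Continuous (Function.uncurry F) → 0 < δ →
    (∀ y ∈ Ioo 0 δ, DifferentiableAt ℝ g y) →
    (∀ y ∈ Ioo 0 δ, HasDerivAt (fun y => y * deriv g y) (F y (g y)) y) →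
    Tendsto g (𝓝[>] 0) (𝓝 g0) → Tendsto (fun y => y * deriv g y) (𝓝[>] 0) (𝓝 0) → g 0 = g0 →
    ∀ y ∈ Ico 0 δ, g y = g0 + ∫ t in (0:ℝ)..y, ∫ θ in (0:ℝ)..1, F (θ * t) (g (θ * t))

/-! ## The profile -/

/-- the nonlinearity `f(u) = e^{a(u - e^u)} (1 - e^u)` -/
def fa (a u : ℝ) : ℝ := Real.exp (a * (u - Real.exp u)) * (1 - Real.exp u)

/-- `f` is bounded and Lipschitz -/
def PropFA : Prop :=
  ∀ a : ℝ, 0 < a → (∃ C, ∀ u, |fa a u| ≤ C) ∧ ∃ L, ∀ u w, |fa a u - fa a w| ≤ L * |u - w|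

/-- the right-hand side for the profile at the origin -/
def FP (a : ℝ) (_ y : ℝ) : ℝ := -(1 / 4) * fa a y

/-- elementary consequences of the integral equation -/
def PropEL : Prop :=
  ∀ (a h0 : ℝ) (h : ℝ → ℝ), 0 < a → Sol (FP a) h0 h → ContDiff ℝ ∞ h → h 0 = h0 ∧
    (∀ x, HasDerivAt (fun x => x * deriv h x) (-(1 / 4) * fa a (h x)) x) ∧
    (h0 < 0 → ∀ x, 0 ≤ x → h x < 0 ∧ h x ≤ h0 ∧ deriv h x < 0)

/-- the flux function `P(x) = -2 x h'(x)` -/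
def PP (h : ℝ → ℝ) (x : ℝ) : ℝ := -2 * (x * deriv h x)

/-- `E(x) = x e^{a (h - e^h)}` -/
def EE (a : ℝ) (h : ℝ → ℝ) (x : ℝ) : ℝ := x * Real.exp (a * (h x - Real.exp (h x)))

/-- a negative solution on the half line: the hypotheses of the asymptotic analysis -/
structure Neg (a : ℝ) (h : ℝ → ℝ) : Prop where
  smooth : ContDiff ℝ ∞ h
  ode : ∀ x, HasDerivAt (fun x => x * deriv h x) (-(1 / 4) * fa a (h x)) x
  neg : ∀ x, 0 ≤ x → h x < 0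
  decr : ∀ x, 0 ≤ x → deriv h x < 0

/-- the flux converges to a limit `c > 4/a`, with upper bounds -/
def PropLIM : Prop :=
  ∀ (a : ℝ) (h : ℝ → ℝ), 0 < a → Neg a h → ∃ c, 4 / a < c ∧ Tendsto (PP h) atTop (𝓝 c) ∧
    (∀ x, 0 ≤ x → PP h x ≤ c) ∧ c ≤ 4 / a / (1 - Real.exp (h 0)) ∧
    (∀ x, 0 ≤ x → EE a h x ≤ a / 2 * c ^ 2) ∧
    Tendsto (EE a h) atTop (𝓝 0) ∧ Tendsto h atTop atBot

/-- trapping: bounds at one point control the limit -/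
def PropTR : Prop :=
  ∀ (a c : ℝ) (h : ℝ → ℝ) (x0 : ℝ), 0 < a → Neg a h → Tendsto (PP h) atTop (𝓝 c) → 0 < x0 →
    3 / a < PP h x0 → Real.exp (h x0) < 1 / 6 → c ≤ PP h x0 + 2 * EE a h x0

/-- the shooting argument: every limit `c > 4/a` occurs -/
def PropSH : Prop :=
  ∀ (a c : ℝ), 0 < a → 4 / a < c → ∃ h, Neg a h ∧ Tendsto (PP h) atTop (𝓝 c)

/-- convergence of `h + (c/2) log x` -/
def PropTA : Prop :=
  ∀ (a c : ℝ) (h : ℝ → ℝ), 0 < a → 4 / a < c → Neg a h → Tendsto (PP h) atTop (𝓝 c) →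
    ∃ l, Tendsto (fun x => h x + c / 2 * Real.log x) atTop (𝓝 l)

/-- the complete profile: `h` near the origin, `q` near infinity -/
structure Prof (a : ℝ) (k m : ℕ) (h q : ℝ → ℝ) : Prop where
  smooth : ContDiff ℝ ∞ h
  ode : ∀ x, HasDerivAt (fun x => x * deriv h x) (-(1 / 4) * fa a (h x)) x
  neg : ∀ x, 0 ≤ x → h x < 0
  q_smooth : ∃ δ > 0, ContDiffOn ℝ ∞ q (Ioi (-δ))
  rel : ∀ x, 0 < x → h x = -(k * m : ℝ) * Real.log x + q ((x ^ k)⁻¹)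

/-- regularity at infinity -/
def PropQ : Prop :=
  ∀ (a : ℝ) (k m : ℕ) (h : ℝ → ℝ) (l : ℝ), 1 ≤ k → 1 ≤ m → 0 < a → a * (k * m) = k + 1 →
    Neg a h → Tendsto (PP h) atTop (𝓝 (2 * (k * m))) →
    Tendsto (fun x => h x + k * m * Real.log x) atTop (𝓝 l) →
    ∃ q, Prof a k m h q

/-! ## The function on the plane -/

/-- the Laplacian on the plane -/
def Lap (v : ℂ → ℝ) (z : ℂ) : ℝ := pd 0 (pd 0 v) z + pd 1 (pd 1 v) z

/-- `s² = |z|² / |z^k - 1|^{2/k}` -/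
def xx (k : ℕ) (z : ℂ) : ℝ :=
  Complex.normSq z * (Complex.normSq (z ^ k - 1)) ^ (-(1 / (k : ℝ)))

/-- `s^{-2k} = |z^k - 1|² / |z|^{2k}` -/
def yy (k : ℕ) (z : ℂ) : ℝ := Complex.normSq (z ^ k - 1) / Complex.normSq z ^ k

/-- the function `v` on the plane -/
def vv (k m : ℕ) (h q : ℝ → ℝ) (z : ℂ) : ℝ :=
  if z = 0 then h 0 else -(k * m : ℝ) * Real.log (Complex.normSq z) + q (yy k z)

/-- the polynomial `(z^k - 1)^m` -/
def hh (k m : ℕ) (z : ℂ) : ℂ := (z ^ k - 1) ^ m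

/-- the two formulas for `v`, smoothness, and `|hh|² e^v < 1` -/
def PropVS : Prop :=
  ∀ (a : ℝ) (k m : ℕ) (h q : ℝ → ℝ), 2 ≤ k → 1 ≤ m → 0 < a → a * (k * m) = k + 1 →
    Prof a k m h q → ContDiff ℝ ∞ (vv k m h q) ∧
      (∀ z, z ^ k ≠ 1 → vv k m h q z = h (xx k z) - m * Real.log (Complex.normSq (z ^ k - 1))) ∧
      (∀ z, Complex.normSq (hh k m z) * Real.exp (vv k m h q z) < 1)

/-- the equation `Δ v = -e^{a(v - |hh|² e^v)} (1 - |hh|² e^v)` -/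
def PDE (a : ℝ) (g : ℂ → ℂ) (v : ℂ → ℝ) : Prop :=
  ∀ z, Lap v z = -(Real.exp (a * (v z - Complex.normSq (g z) * Real.exp (v z))) *
    (1 - Complex.normSq (g z) * Real.exp (v z)))

def PropVP : Prop :=
  ∀ (a : ℝ) (k m : ℕ) (h q : ℝ → ℝ), 2 ≤ k → 1 ≤ m → 0 < a → a * (k * m) = k + 1 →
    Prof a k m h q → ContDiff ℝ ∞ (vv k m h q) →
    (∀ z, z ^ k ≠ 1 → vv k m h q z = h (xx k z) - m * Real.log (Complex.normSq (z ^ k - 1))) →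
    PDE a (hh k m) (vv k m h q)

/-- decay at infinity -/
def Decay (a : ℝ) (g : ℂ → ℂ) (v : ℂ → ℝ) : Prop :=
  ∃ C, ∀ z : ℂ, 2 ≤ ‖z‖ → Real.exp (a * v z) ≤ C * ‖z‖ ^ (-(4:ℝ)) ∧
    Real.exp (v z) * Complex.normSq (deriv g z + g z *
      (((1 / 2 * pd 0 v z : ℝ) : ℂ) - Complex.I * ((1 / 2 * pd 1 v z : ℝ) : ℂ)))
      ≤ C * ‖z‖ ^ (-(4:ℝ))

def PropVA : Prop :=
  ∀ (a : ℝ) (k m : ℕ) (h q : ℝ → ℝ), 2 ≤ k → 1 ≤ m → 0 < a → a * (k * m) = k + 1 →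
    Prof a k m h q → Decay a (hh k m) (vv k m h q)

/-! ## The fields -/

/-- the fields built from a holomorphic function `g` and a real function `v` -/
def fields (ε a : ℝ) (g : ℂ → ℂ) (v : ℂ → ℝ) : Fields where
  eta := fun z => a * (v z - Complex.normSq (g z) * Real.exp (v z)) - 2 * Real.log ε
  A := fun j z => if j = 0 then 1 / 2 * pd 1 v z else -(1 / 2) * pd 0 v z
  phi := fun z => (ε : ℂ) * g z * ((Real.exp (v z / 2) : ℝ) : ℂ)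

/-- smooth self-dual fields: `D_1 φ = i D_0 φ`, `F_{01} = (1/2) e^η (ε² - |φ|²)` -/
structure SD (ε : ℝ) (X : Fields) : Prop where
  eta_smooth : ContDiff ℝ ∞ X.eta
  A_smooth : ∀ j, ContDiff ℝ ∞ (X.A j)
  phi_smooth : ContDiff ℝ ∞ X.phi
  D_eq : ∀ z, X.D 1 X.phi z = Complex.I * X.D 0 X.phi z
  F_eq : ∀ z, X.F 0 1 z = 1 / 2 * Real.exp (X.eta z) * (ε ^ 2 - Complex.normSq (X.phi z))

/-- the fields above are self-dual, with an explicit covariant derivative -/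
def PropSD : Prop :=
  ∀ (ε a : ℝ) (g : ℂ → ℂ) (v : ℂ → ℝ), 0 < ε → Differentiable ℂ g →
    ContDiff ℝ ∞ v → PDE a g v → SD ε (fields ε a g v) ∧
    ∀ z, (fields ε a g v).D 0 (fields ε a g v).phi z =
      (ε : ℂ) * ((Real.exp (v z / 2) : ℝ) : ℂ) * (deriv g z + g z *
        (((1 / 2 * pd 0 v z : ℝ) : ℂ) - Complex.I * ((1 / 2 * pd 1 v z : ℝ) : ℂ)))

/-- self-dual fields: the energy density and the stress tensor -/
def PropST : Prop :=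
  ∀ (ε : ℝ) (X : Fields), SD ε X →
    (∀ z, X.H ε z * Real.exp (X.eta z) =
      1 / 4 * Real.exp (X.eta z) * (ε ^ 2 - Complex.normSq (X.phi z)) ^ 2 +
        Complex.normSq (X.D 0 X.phi z)) ∧ ∀ j k z, X.T ε j k z = 0

/-- self-dual fields: Maxwell's equations -/
def PropMA : Prop :=
  ∀ (ε : ℝ) (X : Fields), SD ε X → ∀ j z, ((1 / X.vol z * ∑ j', ∑ k, ∑ k',
      pd j' (fun w => X.inv j k w * X.inv j' k' w * X.vol w * X.F k k' w) z : ℝ) : ℂ) =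
    Complex.I / 2 * ∑ k, (X.inv j k z : ℂ) *
      (X.phi z * conj (X.D k X.phi z) - conj (X.phi z) * X.D k X.phi z)

/-- self-dual fields: the equation of the Higgs field -/
def PropHI : Prop :=
  ∀ (ε : ℝ) (X : Fields), SD ε X → ∀ z, ((1 / X.vol z : ℝ) : ℂ) *
      ∑ j, ∑ k, X.D j (fun w => ((X.inv j k w * X.vol w : ℝ) : ℂ) * X.D k X.phi w) z =
    ((1 / 2 * (Complex.normSq (X.phi z) - ε ^ 2) : ℝ) : ℂ) * X.phi z

/-- self-dual fields: `e^η H = (ε²/2) F_{01} + (1/4) Δ|φ|²` -/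
def PropBO : Prop :=
  ∀ (ε : ℝ) (X : Fields), SD ε X → ∀ z, X.H ε z * Real.exp (X.eta z) =
    ε ^ 2 / 2 * X.F 0 1 z + 1 / 4 * Lap (fun w => Complex.normSq (X.phi w)) z

/-- a continuous function with decay `|z|^{-4}` is integrable -/
def PropIN : Prop :=
  ∀ (f : ℂ → ℝ) (C : ℝ), Continuous f → (∀ z : ℂ, 2 ≤ ‖z‖ → |f z| ≤ C * ‖z‖ ^ (-(4:ℝ))) →
    Integrable f

end Pool.Agent.W117.GH
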