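import Pool.Agent.W117.GH.Stm

set_option autoImplicit false

open scoped ContDiff ComplexConjugate
open MeasureTheory Filter Topology Set

noncomputable section

namespace Pool.Agent.W117.GH

theorem contDiff_pd {E : Type*} [NormedAddCommGroup E] [NormedSpace ℝ E] (j : Fin 2) {f : ℂ → E}
    (hf : ContDiff ℝ ∞ f) : ContDiff ℝ ∞ (pd j f) := by
  unfold pd
  exact (hf.fderiv_right (m := ∞) (by simp)).clm_apply contDiff_const

theorem pd_add {f g : ℂ → ℝ} (hf : ContDiff ℝ ∞ f) (hg : ContDiff ℝ ∞ g) (j : Fin 2) :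
    pd j (fun z => f z + g z) = fun z => pd j f z + pd j g z := by
  funext z
  unfold pd
  have := fderiv_fun_add (hf.differentiable (by simp) z) (hg.differentiable (by simp) z)
  rw [this]; rfl

theorem pd_const_mul {f : ℂ → ℝ} (hf : ContDiff ℝ ∞ f) (c : ℝ) (j : Fin 2) :
    pd j (fun z => c * f z) = fun z => c * pd j f z := by
  funext z
  unfold pd
  have := fderiv_const_mul (hf.differentiable (by simp) z) c
  rw [this]; rfl

theorem pd_const (c : ℝ) (j : Fin 2) : pd j (fun _ : ℂ => c) = fun _ => 0 := by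
  funext z
  unfold pd
  simp

theorem Lap_add {f g : ℂ → ℝ} (hf : ContDiff ℝ ∞ f) (hg : ContDiff ℝ ∞ g) (z : ℂ) :
    Lap (fun z => f z + g z) z = Lap f z + Lap g z := by
  unfold Lap
  rw [pd_add hf hg, pd_add hf hg, pd_add (contDiff_pd 0 hf) (contDiff_pd 0 hg),
    pd_add (contDiff_pd 1 hf) (contDiff_pd 1 hg)]
  ring

theorem Lap_const_mul {f : ℂ → ℝ} (hf : ContDiff ℝ ∞ f) (c : ℝ) (z : ℂ) :
    Lap (fun z => c * f z) z = c * Lap f z := by
  unfold Lap
  rw [pd_const_mul hf, pd_const_mul hf, pd_const_mul (contDiff_pd 0 hf),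
    pd_const_mul (contDiff_pd 1 hf)]
  ring

theorem Lap_const (c : ℝ) (z : ℂ) : Lap (fun _ : ℂ => c) z = 0 := by
  unfold Lap
  rw [pd_const, pd_const, pd_const, pd_const]
  simp

theorem contDiff_of_holo {g : ℂ → ℂ} (hg : Differentiable ℂ g) : ContDiff ℝ ∞ g := by
  have h : ContDiff ℂ ∞ g := hg.contDiff
  exact h.restrict_scalars ℝ

theorem contDiff_normSq : ContDiff ℝ ∞ (fun z : ℂ => Complex.normSq z) := by
  have : (fun z : ℂ => Complex.normSq z) = fun z : ℂ => z.re * z.re + z.im * z.im := by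
    funext z; exact Complex.normSq_apply z
  rw [this]
  have h1 : ContDiff ℝ ∞ (fun z : ℂ => z.re) := Complex.reCLM.contDiff
  have h2 : ContDiff ℝ ∞ (fun z : ℂ => z.im) := Complex.imCLM.contDiff
  exact (h1.mul h1).add (h2.mul h2)

/-- `b = |g|² e^v` -/
theorem contDiff_b {g : ℂ → ℂ} {v : ℂ → ℝ} (hg : Differentiable ℂ g) (hv : ContDiff ℝ ∞ v) :
    ContDiff ℝ ∞ (fun z => Complex.normSq (g z) * Real.exp (v z)) :=
  (contDiff_normSq.comp (contDiff_of_holo hg)).mul hv.exp

theorem normSq_phi (ε a : ℝ) (g : ℂ → ℂ) (v : ℂ → ℝ) (z : ℂ) :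
    Complex.normSq ((fields ε a g v).phi z) = ε ^ 2 * (Complex.normSq (g z) * Real.exp (v z)) := by
  show Complex.normSq ((ε : ℂ) * g z * ((Real.exp (v z / 2) : ℝ) : ℂ)) = _
  rw [Complex.normSq_mul, Complex.normSq_mul, Complex.normSq_ofReal, Complex.normSq_ofReal]
  have : Real.exp (v z / 2) * Real.exp (v z / 2) = Real.exp (v z) := by
    rw [← Real.exp_add]; congr 1; ring
  rw [this]; ring

/-- the fields satisfy all the equations -/
theorem isSolution (hSD : PropSD) (hST : PropST) (hMA : PropMA) (hHI : PropHI) (hBO : PropBO)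
    (ε G : ℝ) (hε : 0 < ε) (g : ℂ → ℂ) (v : ℂ → ℝ) (hg : Differentiable ℂ g)
    (hv : ContDiff ℝ ∞ v) (hP : PDE (4 * Real.pi * ε ^ 2 * G) g v) :
    (fields ε (4 * Real.pi * ε ^ 2 * G) g v).IsSolution ε G := by
  set a := 4 * Real.pi * ε ^ 2 * G with ha
  obtain ⟨hsd, -⟩ := hSD ε a g v hε hg hv hP
  have hb := contDiff_b hg hv
  refine ⟨hsd.eta_smooth, hsd.A_smooth, hsd.phi_smooth, ?_, (hST ε _ hsd).2, hHI ε _ hsd,
    hMA ε _ hsd⟩
  intro z
  have h1 := hBO ε _ hsd z
  have hF : (fields ε a g v).F 0 1 z = -(1 / 2) * Lap v z := by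
    unfold Fields.F Lap
    have e1 : (fields ε a g v).A 1 = fun z => -(1 / 2) * pd 0 v z := by
      funext w; simp [fields]
    have e0 : (fields ε a g v).A 0 = fun z => 1 / 2 * pd 1 v z := by
      funext w; simp [fields]
    rw [e1, e0, pd_const_mul (contDiff_pd 0 hv), pd_const_mul (contDiff_pd 1 hv)]
    ring
  have hphi : (fun w => Complex.normSq ((fields ε a g v).phi w)) =
      fun w => ε ^ 2 * (Complex.normSq (g w) * Real.exp (v w)) := by
    funext w; exact normSq_phi ε a g v w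
  rw [hF, hphi, Lap_const_mul hb] at h1
  have heta : (fields ε a g v).eta = fun z => (a * v z + (-a) *
      (Complex.normSq (g z) * Real.exp (v z))) + -(2 * Real.log ε) := by
    funext w; simp only [fields]; ring
  have hL : pd 0 (pd 0 (fields ε a g v).eta) z + pd 1 (pd 1 (fields ε a g v).eta) z =
      a * Lap v z - a * Lap (fun z => Complex.normSq (g z) * Real.exp (v z)) z := by
    have : pd 0 (pd 0 (fields ε a g v).eta) z + pd 1 (pd 1 (fields ε a g v).eta) z =
      Lap (fields ε a g v).eta z := rfl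
    rw [this, heta, Lap_add ((contDiff_const.mul hv).add (contDiff_const.mul hb)) contDiff_const,
      Lap_add (contDiff_const.mul hv) (contDiff_const.mul hb), Lap_const_mul hv,
      Lap_const_mul hb, Lap_const]
    ring
  unfold Fields.K
  rw [hL]
  have hpos : Real.exp ((fields ε a g v).eta z) ≠ 0 := (Real.exp_pos _).ne'
  have h2 : (fields ε a g v).H ε z = Real.exp (-(fields ε a g v).eta z) *
      (ε ^ 2 / 2 * (-(1 / 2) * Lap v z) + 1 / 4 * (ε ^ 2 *
        Lap (fun z => Complex.normSq (g z) * Real.exp (v z)) z)) := by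
    rw [← h1, mul_comm, mul_assoc, ← Real.exp_add]
    simp
  rw [h2, ha]
  ring


/-- finite energy -/
theorem finiteEnergy (hSD : PropSD) (hST : PropST) (hIN : PropIN)
    (ε G a : ℝ) (hε : 0 < ε) (ha : 0 < a) (g : ℂ → ℂ) (v : ℂ → ℝ) (hg : Differentiable ℂ g)
    (hv : ContDiff ℝ ∞ v) (hP : PDE a g v) (h1 : ∀ z, Complex.normSq (g z) * Real.exp (v z) < 1)
    (hD : Decay a g v) (hK : ∀ z, (fields ε a g v).K z = 8 * Real.pi * G * (fields ε a g v).H ε z) :
    (fields ε a g v).FiniteEnergy ε := by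
  obtain ⟨hsd, hD0⟩ := hSD ε a g v hε hg hv hP
  have hst := (hST ε _ hsd).1
  have hH : Integrable (fun z => (fields ε a g v).H ε z * Real.exp ((fields ε a g v).eta z)) := by
    obtain ⟨C, hC⟩ := hD
    have hC0 : 0 ≤ C := by
      have := (hC 2 (by simp)).1
      have h2 : (0:ℝ) < ‖(2:ℂ)‖ ^ (-(4:ℝ)) := Real.rpow_pos_of_pos (by simp) _
      by_contra hneg
      have h3 : C * ‖(2:ℂ)‖ ^ (-(4:ℝ)) < 0 := mul_neg_of_neg_of_pos (by linarith) h2
      have := Real.exp_pos (a * v 2)
      linarith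
    have hform : ∀ z, (fields ε a g v).H ε z * Real.exp ((fields ε a g v).eta z) =
        1 / 4 * ε ^ 2 * Real.exp (a * (v z - Complex.normSq (g z) * Real.exp (v z))) *
          (1 - Complex.normSq (g z) * Real.exp (v z)) ^ 2 +
        ε ^ 2 * (Real.exp (v z) * Complex.normSq (deriv g z + g z *
          (((1 / 2 * pd 0 v z : ℝ) : ℂ) - Complex.I * ((1 / 2 * pd 1 v z : ℝ) : ℂ)))) := by
      intro z
      rw [hst z, normSq_phi, hD0 z]
      have he : Real.exp ((fields ε a g v).eta z) =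
          Real.exp (a * (v z - Complex.normSq (g z) * Real.exp (v z))) / ε ^ 2 := by
        show Real.exp (a * (v z - Complex.normSq (g z) * Real.exp (v z)) - 2 * Real.log ε) = _
        rw [Real.exp_sub]
        congr 1
        rw [two_mul, Real.exp_add, Real.exp_log hε]; ring
      rw [he, Complex.normSq_mul, Complex.normSq_mul, Complex.normSq_ofReal, Complex.normSq_ofReal]
      have h3 : Real.exp (v z / 2) * Real.exp (v z / 2) = Real.exp (v z) := by
        rw [← Real.exp_add]; congr 1; ring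
      rw [h3]
      field_simp
    refine hIN _ (1 / 4 * ε ^ 2 * C + ε ^ 2 * C) ?_ ?_
    · have hgc : Continuous g := hg.continuous
      have hvc : Continuous v := hv.continuous
      have hg' : Continuous (deriv g) := (hg.contDiff (n := 1)).continuous_deriv (le_refl _)
      have hp : ∀ j, Continuous (pd j v) := fun j => (contDiff_pd j hv).continuous
      have hns : Continuous Complex.normSq := Complex.continuous_normSq
      have : (fun z => (fields ε a g v).H ε z * Real.exp ((fields ε a g v).eta z)) = fun z =>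
        1 / 4 * ε ^ 2 * Real.exp (a * (v z - Complex.normSq (g z) * Real.exp (v z))) *
          (1 - Complex.normSq (g z) * Real.exp (v z)) ^ 2 +
        ε ^ 2 * (Real.exp (v z) * Complex.normSq (deriv g z + g z *
          (((1 / 2 * pd 0 v z : ℝ) : ℂ) - Complex.I * ((1 / 2 * pd 1 v z : ℝ) : ℂ)))) := by
        funext z; exact hform z
      rw [this]
      have hp0 := hp 0
      have hp1 := hp 1
      fun_prop
    · intro z hz
      obtain ⟨c1, c2⟩ := hC z hz
      have hz0 : 0 ≤ ‖z‖ ^ (-(4:ℝ)) := Real.rpow_nonneg (norm_nonneg _) _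
      rw [hform z]
      set b := Complex.normSq (g z) * Real.exp (v z) with hb
      have hb0 : 0 ≤ b := mul_nonneg (Complex.normSq_nonneg _) (Real.exp_pos _).le
      have hb1 : b < 1 := h1 z
      have e1 : Real.exp (a * (v z - b)) ≤ C * ‖z‖ ^ (-(4:ℝ)) := by
        refine le_trans (Real.exp_le_exp.2 ?_) c1
        nlinarith
      have e2 : (1 - b) ^ 2 ≤ 1 := by nlinarith
      have e3 : 0 ≤ (1 - b) ^ 2 := sq_nonneg _
      have e4 := Real.exp_pos (a * (v z - b))
      have n2 : 0 ≤ Real.exp (v z) * Complex.normSq (deriv g z + g z *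
          (((1 / 2 * pd 0 v z : ℝ) : ℂ) - Complex.I * ((1 / 2 * pd 1 v z : ℝ) : ℂ))) :=
        mul_nonneg (Real.exp_pos _).le (Complex.normSq_nonneg _)
      rw [abs_of_nonneg]
      · have : Real.exp (a * (v z - b)) * (1 - b) ^ 2 ≤ C * ‖z‖ ^ (-(4:ℝ)) := by
          calc _ ≤ Real.exp (a * (v z - b)) * 1 := mul_le_mul_of_nonneg_left e2 e4.le
            _ ≤ _ := by rw [mul_one]; exact e1
        have hε2 : 0 < ε ^ 2 := by positivity
        have t1 := mul_le_mul_of_nonneg_left this (by positivity : 0 ≤ 1 / 4 * ε ^ 2)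
        have t2 := mul_le_mul_of_nonneg_left c2 hε2.le
        nlinarith
      · have hε2 : 0 < ε ^ 2 := by positivity
        positivity
  refine ⟨hH, ?_⟩
  have : (fun z => (fields ε a g v).K z * Real.exp ((fields ε a g v).eta z)) = fun z =>
      8 * Real.pi * G * ((fields ε a g v).H ε z * Real.exp ((fields ε a g v).eta z)) := by
    funext z; rw [hK z]; ring
  rw [this]
  exact hH.const_mul _

/-- `z^k - 1` as a product over its roots -/
theorem prod_roots (k : ℕ) (hk : 1 ≤ k) (z : ℂ) :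
    z ^ k - 1 = ∏ p ∈ Polynomial.nthRootsFinset k (1:ℂ), (z - p) := by
  have h := Polynomial.X_pow_sub_one_eq_prod (R := ℂ) (ζ := Complex.exp (2 * Real.pi * Complex.I / k))
    (n := k) (by omega) (Complex.isPrimitiveRoot_exp k (by omega))
  have h2 := congrArg (fun p => Polynomial.eval z p) h
  simp only [Polynomial.eval_sub, Polynomial.eval_pow, Polynomial.eval_X, Polynomial.eval_one,
    Polynomial.eval_prod, Polynomial.eval_C] at h2
  exact h2

theorem differentiable_hh (k m : ℕ) : Differentiable ℂ (hh k m) := by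
  unfold hh; fun_prop

/-- the main theorem from its parts -/
theorem final (hSH : PropSH) (hTA : PropTA) (hQ : PropQ) (hVS : PropVS) (hVP : PropVP)
    (hVA : PropVA) (hSD : PropSD) (hST : PropST) (hMA : PropMA) (hHI : PropHI) (hBO : PropBO)
    (hIN : PropIN) (k m : ℕ) (hk : 2 ≤ k) (hm : 1 ≤ m) (ε G : ℝ) (hε : 0 < ε) (hG : 0 < G)
    (hN : 4 * Real.pi * ε ^ 2 * G * (k * m) = k + 1) :
    1 / (2 * Real.pi * ε ^ 2 * G) < ((k * m : ℕ) : ℝ) ∧ ∃ X : Fields, X.IsSolution ε G ∧
      X.FiniteEnergy ε ∧ X.IsNString (k * m) ∧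
      ∃ ψ : ℂ → ℂ, ContDiff ℝ ∞ ψ ∧ (∀ z, ψ z ≠ 0) ∧ ∀ z, X.phi z = (z ^ k - 1) ^ m * ψ z := by
  have hk' : (2:ℝ) ≤ k := by exact_mod_cast hk
  have hm' : (1:ℝ) ≤ m := by exact_mod_cast hm
  set a := 4 * Real.pi * ε ^ 2 * G with haa
  have ha : 0 < a := by positivity
  constructor
  · have h2 : 2 * Real.pi * ε ^ 2 * G = a / 2 := by rw [haa]; ring
    rw [h2]
    push_cast
    rw [div_lt_iff₀ (by positivity)]
    nlinarith
  have hc : 4 / a < 2 * (k * m : ℝ) := by
    rw [div_lt_iff₀ ha]; nlinarith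
  obtain ⟨h, hneg, hlim⟩ := hSH a (2 * (k * m : ℝ)) ha hc
  obtain ⟨l, hl⟩ := hTA a _ h ha hc hneg hlim
  have hl' : Tendsto (fun x => h x + k * m * Real.log x) atTop (𝓝 l) := by
    refine hl.congr fun x => ?_
    ring
  obtain ⟨q, hprof⟩ := hQ a k m h l (by omega) hm ha hN hneg hlim hl'
  obtain ⟨hv, hform, hlt⟩ := hVS a k m h q hk hm ha hN hprof
  have hP := hVP a k m h q hk hm ha hN hprof hv hform
  have hD := hVA a k m h q hk hm ha hN hprof
  have hg := differentiable_hh k m
  have hsol := isSolution hSD hST hMA hHI hBO ε G hε (hh k m) (vv k m h q) hg hv hP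
  refine ⟨fields ε a (hh k m) (vv k m h q), hsol, ?_, ?_, ?_⟩
  · exact finiteEnergy hSD hST hIN ε G a hε ha (hh k m) (vv k m h q) hg hv hP hlt hD hsol.einstein
  · refine ⟨Polynomial.nthRootsFinset k (1:ℂ), fun _ => m,
      fun z => (ε : ℂ) * ((Real.exp (vv k m h q z / 2) : ℝ) : ℂ), ?_, ?_, fun _ _ => hm, ?_, ?_⟩
    · exact contDiff_const.mul (Complex.ofRealCLM.contDiff.comp (hv.div_const 2).exp)
    · intro z
      have : (ε : ℂ) ≠ 0 := by exact_mod_cast hε.ne'
      have h2 : ((Real.exp (vv k m h q z / 2) : ℝ) : ℂ) ≠ 0 := by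
        exact_mod_cast (Real.exp_pos _).ne'
      exact mul_ne_zero this h2
    · rw [Finset.sum_const, smul_eq_mul]
      congr 1
      exact (Complex.isPrimitiveRoot_exp k (by omega)).card_nthRootsFinset
    · intro z
      rw [Finset.prod_pow, ← prod_roots k (by omega)]
      show (ε : ℂ) * hh k m z * _ = _
      unfold hh; ring
  · refine ⟨fun z => (ε : ℂ) * ((Real.exp (vv k m h q z / 2) : ℝ) : ℂ), ?_, ?_, ?_⟩
    · exact contDiff_const.mul (Complex.ofRealCLM.contDiff.comp (hv.div_const 2).exp)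
    · intro z
      have : (ε : ℂ) ≠ 0 := by exact_mod_cast hε.ne'
      have h2 : ((Real.exp (vv k m h q z / 2) : ℝ) : ℂ) ≠ 0 := by
        exact_mod_cast (Real.exp_pos _).ne'
      exact mul_ne_zero this h2
    · intro z
      show (ε : ℂ) * hh k m z * _ = _
      unfold hh; ring

end Pool.Agent.W117.GH
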