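import Mathlib

/-!
# The coupled Einstein and Abelian Higgs equations on the plane (critical coupling)

The plane is `ℂ`. `pd 0 = ∂/∂x`, `pd 1 = ∂/∂y`. The metric is `g = e^η (dx² + dy²)`.
-/

set_option autoImplicit false

open scoped ContDiff ComplexConjugate
open MeasureTheory

noncomputable section

namespace Pool.Agent.W117.GH

/-- the two coordinate directions of the plane `ℂ` -/
def dir : Fin 2 → ℂ := ![1, Complex.I]

/-- the partial derivative in the `j`-th coordinate direction -/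
def pd {E : Type*} [NormedAddCommGroup E] [NormedSpace ℝ E] (j : Fin 2) (f : ℂ → E) (z : ℂ) : E :=
  fderiv ℝ f z (dir j)

/-- conformal factor, gauge potential, Higgs field -/
structure Fields where
  eta : ℂ → ℝ
  A : Fin 2 → ℂ → ℝ
  phi : ℂ → ℂ

namespace Fields

variable (X : Fields)

/-- the metric `g_{jk} = e^η δ_{jk}` -/
def met (j k : Fin 2) (z : ℂ) : ℝ := if j = k then Real.exp (X.eta z) else 0

/-- the inverse metric `g^{jk}` -/
def inv (j k : Fin 2) (z : ℂ) : ℝ := if j = k then Real.exp (-X.eta z) else 0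

/-- the volume density `√g = e^η` -/
def vol (z : ℂ) : ℝ := Real.exp (X.eta z)

/-- the field strength `F_{jk} = ∂_j A_k - ∂_k A_j` -/
def F (j k : Fin 2) (z : ℂ) : ℝ := pd j (X.A k) z - pd k (X.A j) z

/-- the covariant derivative `D_j ψ = ∂_j ψ - i A_j ψ` -/
def D (j : Fin 2) (ψ : ℂ → ℂ) (z : ℂ) : ℂ := pd j ψ z - Complex.I * (X.A j z : ℂ) * ψ z

/-- the energy density
`H = (1/4) g^{jj'} g^{kk'} F_{jk} F_{j'k'} + (1/2) g^{jk} (D_j φ) conj(D_k φ) + (1/8)(|φ|² - ε²)²` -/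
def H (ε : ℝ) (z : ℂ) : ℝ :=
  1 / 4 * ∑ j, ∑ k, ∑ j', ∑ k', X.inv j j' z * X.inv k k' z * X.F j k z * X.F j' k' z
    + 1 / 2 * ∑ j, ∑ k, X.inv j k z * (X.D j X.phi z * conj (X.D k X.phi z)).re
    + 1 / 8 * (Complex.normSq (X.phi z) - ε ^ 2) ^ 2

/-- the stress tensor
`T_{jk} = g^{j'k'} F_{jj'} F_{kk'} + (1/2)(D_j φ conj(D_k φ) + conj(D_j φ) D_k φ) - g_{jk} H` -/
def T (ε : ℝ) (j k : Fin 2) (z : ℂ) : ℝ :=
  ∑ j', ∑ k', X.inv j' k' z * X.F j j' z * X.F k k' z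
    + (X.D j X.phi z * conj (X.D k X.phi z)).re - X.met j k z * X.H ε z

/-- the Gauss curvature of `e^η (dx² + dy²)` -/
def K (z : ℂ) : ℝ :=
  -(1 / 2) * Real.exp (-X.eta z) * (pd 0 (pd 0 X.eta) z + pd 1 (pd 1 X.eta) z)

/-- smooth solutions of the coupled Einstein and Abelian Higgs equations -/
structure IsSolution (ε G : ℝ) : Prop where
  eta_smooth : ContDiff ℝ ∞ X.eta
  A_smooth : ∀ j, ContDiff ℝ ∞ (X.A j)
  phi_smooth : ContDiff ℝ ∞ X.phi
  einstein : ∀ z, X.K z = 8 * Real.pi * G * X.H ε z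
  stress : ∀ j k z, X.T ε j k z = 0
  higgs : ∀ z, ((1 / X.vol z : ℝ) : ℂ) *
      ∑ j, ∑ k, X.D j (fun w => ((X.inv j k w * X.vol w : ℝ) : ℂ) * X.D k X.phi w) z =
    ((1 / 2 * (Complex.normSq (X.phi z) - ε ^ 2) : ℝ) : ℂ) * X.phi z
  maxwell : ∀ j z, ((1 / X.vol z * ∑ j', ∑ k, ∑ k',
      pd j' (fun w => X.inv j k w * X.inv j' k' w * X.vol w * X.F k k' w) z : ℝ) : ℂ) =
    Complex.I / 2 * ∑ k, (X.inv j k z : ℂ) *
      (X.phi z * conj (X.D k X.phi z) - conj (X.phi z) * X.D k X.phi z)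

/-- finite energy: `∫ H e^η dx < ∞` and `∫ K_g e^η dx` converges absolutely -/
def FiniteEnergy (ε : ℝ) : Prop :=
  Integrable (fun z => X.H ε z * Real.exp (X.eta z)) ∧
    Integrable (fun z => X.K z * Real.exp (X.eta z))

/-- `φ` has exactly `N` zeros counted with multiplicity -/
def IsNString (N : ℕ) : Prop :=
  ∃ (S : Finset ℂ) (n : ℂ → ℕ) (ψ : ℂ → ℂ), ContDiff ℝ ∞ ψ ∧ (∀ z, ψ z ≠ 0) ∧
    (∀ p ∈ S, 1 ≤ n p) ∧ ∑ p ∈ S, n p = N ∧ ∀ z, X.phi z = (∏ p ∈ S, (z - p) ^ n p) * ψ z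

end Fields

end Pool.Agent.W117.GH
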